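import Pool.Agent.R888.QR.QFin
import Pool.Agent.R269.KS.Zero

/-!
# Functions completely multiplicative outside the powers of one prime, beyond `x^(-1/2)`
-/

set_option autoImplicit false

namespace Pool.Agent.Results.MP_768c9c_nt.OnePrime

open Finset Filter Topology

/-- `f` is completely multiplicative away from the prime `l`: `f(mn) = f(m) f(n)` unless both `m`
and `n` are divisible by `l` -/
def CMAwayFrom (l : ℕ) (f : ℕ → ℂ) : Prop :=
  f 1 = 1 ∧ ∀ m n : ℕ, 1 ≤ m → 1 ≤ n → (¬ l ∣ m ∨ ¬ l ∣ n) → f (m * n) = f m * f n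

/-- the sum is zero and the sums over the powers of each prime converge to nonzero numbers -/
def SumZero (f : ℕ → ℂ) : Prop :=
  Tendsto (fun N : ℕ => ∑ n ∈ Icc 1 N, f n) atTop (𝓝 0) ∧
    ∀ p : ℕ, p.Prime → ∃ L : ℂ, L ≠ 0 ∧
      Tendsto (fun K : ℕ => ∑ k ∈ range K, f (p ^ k)) atTop (𝓝 L)

/-- the sums over the powers of a prime, for completely multiplicative functions -/
theorem local_cm {f : ℕ → ℂ} (h1 : f 1 = 1)
    (hm : ∀ m n : ℕ, 1 ≤ m → 1 ≤ n → f (m * n) = f m * f n)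
    (hs : Tendsto (fun N : ℕ => ∑ n ∈ Icc 1 N, f n) atTop (𝓝 0)) (p : ℕ) (hp : p.Prime) :
    ∃ L : ℂ, L ≠ 0 ∧ Tendsto (fun K : ℕ => ∑ k ∈ range K, f (p ^ k)) atTop (𝓝 L) := by
  have hpow : ∀ k : ℕ, f (p ^ k) = f p ^ k := by
    intro k
    induction k with
    | zero => simp [h1]
    | succ k ih =>
      rw [pow_succ, hm _ _ (Nat.pos_of_ne_zero (pow_ne_zero k hp.ne_zero)) hp.one_lt.le, ih,
        pow_succ]
  -- `f n → 0`
  have h0 : Tendsto f atTop (𝓝 0) := by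
    have ha : Tendsto (fun N : ℕ => ∑ n ∈ Icc 1 (N + 1), f n) atTop (𝓝 0) :=
      hs.comp (tendsto_add_atTop_nat 1)
    have hb := ha.sub hs
    rw [sub_zero] at hb
    have hc : Tendsto (fun N : ℕ => f (N + 1)) atTop (𝓝 0) := by
      refine hb.congr fun N => ?_
      rw [Finset.sum_Icc_succ_top (by omega)]
      ring
    exact (tendsto_add_atTop_iff_nat 1).1 hc
  have hpk : Tendsto (fun k : ℕ => f p ^ k) atTop (𝓝 0) := by
    have h2 := h0.comp (tendsto_pow_atTop_atTop_of_one_lt hp.one_lt)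
    refine h2.congr fun k => ?_
    exact hpow k
  have hlt : ‖f p‖ < 1 := by
    rw [tendsto_zero_iff_norm_tendsto_zero] at hpk
    simp only [norm_pow] at hpk
    have h3 := (tendsto_pow_atTop_nhds_zero_iff).1 hpk
    rwa [abs_of_nonneg (norm_nonneg _)] at h3
  refine ⟨(1 - f p)⁻¹, ?_, ?_⟩
  · apply inv_ne_zero
    intro h
    have h4 : f p = 1 := by linear_combination -h
    rw [h4] at hlt
    simp at hlt
  · refine ((hasSum_geometric_of_norm_lt_one hlt).tendsto_sum_nat).congr fun K => ?_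
    apply Finset.sum_congr rfl
    intro k _
    exact (hpow k).symm

theorem result : ∃ c : ℝ, 0 < c ∧ ∀ l : ℕ, l.Prime → ∃ f : ℕ → ℂ, CMAwayFrom l f ∧ SumZero f ∧
    ∃ C : ℝ, 0 < C ∧ ∀ N : ℕ, 1 ≤ N →
      ‖∑ n ∈ Icc 1 N, f n‖ ≤ C * (N : ℝ) ^ (-(1 / 2 : ℝ) - c) := by
  obtain ⟨θ, hθ, hθ1, h⟩ := Pool.Agent.R888.QR.concl_of_zeroFree
  by_cases hz : ∀ s : ℂ, θ < s.re → s.re < 1 → riemannZeta s ≠ 0
  · obtain ⟨f, h1, hm, hs, c, C, hc, hC, hb⟩ := h hz
    exact ⟨c, hc, fun l _ => ⟨f, ⟨h1, fun m n hm1 hn1 _ => hm m n hm1 hn1⟩,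
      ⟨hs, fun p hp => local_cm h1 hm hs p hp⟩, C, hC, hb⟩⟩
  · push Not at hz
    obtain ⟨α, hα, hα1, hα0⟩ := hz
    have h0 : 0 < α.re := by linarith
    refine ⟨θ - 1 / 2, by linarith, fun l hl => ?_⟩
    obtain ⟨C, hC, hb⟩ := Pool.Agent.R269.KS.G_bound h0 hα1 hα0 hl
    refine ⟨Pool.Agent.R269.KS.G α l, ⟨Pool.Agent.R269.KS.G_one α hl, fun m n _ _ hmn =>
      Pool.Agent.R269.KS.G_mul α hl m n hmn⟩, ⟨?_, fun p hp =>
      Pool.Agent.R269.KS.G_local α h0 hα1 hl p hp⟩, C, hC, fun N hN => ?_⟩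
    · have h2 : Tendsto (fun N : ℕ => C * (N : ℝ) ^ (-α.re)) atTop (𝓝 0) := by
        have h3 := ((tendsto_rpow_neg_atTop h0).comp tendsto_natCast_atTop_atTop).const_mul C
        rw [mul_zero] at h3
        exact h3
      apply squeeze_zero_norm' _ h2
      filter_upwards [eventually_ge_atTop 1] with N hN
      exact hb N hN
    · refine (hb N hN).trans ?_
      apply mul_le_mul_of_nonneg_left _ hC.le
      apply Real.rpow_le_rpow_of_exponent_le (by exact_mod_cast hN)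
      linarith

end Pool.Agent.Results.MP_768c9c_nt.OnePrime
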